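import Pool.Agent.Helper97.Nag.Goals

/-!
# Project NAG, packet NAG-CBS
-/

set_option autoImplicit false

noncomputable section

namespace Pool.Agent.Helper59.Nag.CBS

open Pool.Agent.Helper97.Nag

/-- the window of the level `j` -/
def W (k d m : ℕ) (Om eta : ℝ) (j : ℕ) : Finset ℤ :=
  if k * j = d then {0} else
    Finset.Ico ⌈Aj k d m Om eta j⌉ (⌈Aj k d m Om eta j⌉ + (kap k d m j : ℤ))

theorem W_card (k d m : ℕ) (Om eta : ℝ) (j : ℕ) : (W k d m Om eta j).card = nu k d m j := by
  unfold W nu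
  split_ifs with h
  · simp
  · simp

theorem split (A K : ℝ) (hK : 0 < K) (r : ℕ) (hr : 1 ≤ r) (n : ℝ) :
    (A ≤ n ∧ n < A + K) ↔ ∃ l < r, A + (l : ℕ) * (K / r) ≤ n ∧ n < A + ((l : ℕ) + 1) * (K / r) := by
  have hr0 : (0 : ℝ) < r := by exact_mod_cast hr
  have hq : 0 < K / r := div_pos hK hr0
  constructor
  · rintro ⟨h1, h2⟩
    have hx0 : 0 ≤ (n - A) / (K / r) := div_nonneg (by linarith) hq.le
    have hx1 : (n - A) / (K / r) < r := by
      rw [div_lt_iff₀ hq]
      have : (r : ℝ) * (K / r) = K := by field_simp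
      rw [this]
      linarith
    have hl := Nat.floor_le hx0
    have hu := Nat.lt_floor_add_one ((n - A) / (K / r))
    refine ⟨⌊(n - A) / (K / r)⌋₊, ?_, ?_, ?_⟩
    · exact_mod_cast lt_of_le_of_lt hl hx1
    · rw [le_div_iff₀ hq] at hl
      linarith
    · rw [div_lt_iff₀ hq] at hu
      linarith
  · rintro ⟨l, hl, h1, h2⟩
    have h3 : ((l : ℝ) + 1) ≤ r := by exact_mod_cast hl
    have h4 : (r : ℝ) * (K / r) = K := by field_simp
    have h5 : ((l : ℝ) + 1) * (K / r) ≤ K := by
      calc ((l : ℝ) + 1) * (K / r) ≤ r * (K / r) := mul_le_mul_of_nonneg_right h3 hq.le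
        _ = K := h4
    have h6 : 0 ≤ (l : ℝ) * (K / r) := mul_nonneg (Nat.cast_nonneg l) hq.le
    exact ⟨by linarith, by linarith⟩

theorem t : S_CBS := by
  intro k r d m Om eta hk hr hmd
  have hdisj : ∀ i ∈ Finset.range (d / k + 1), ∀ j ∈ Finset.range (d / k + 1), i ≠ j →
      Disjoint ((W k d m Om eta i).map ⟨Prod.mk i, Prod.mk_right_injective i⟩)
        ((W k d m Om eta j).map ⟨Prod.mk j, Prod.mk_right_injective j⟩) := by
    intro i _ j _ hij
    rw [Finset.disjoint_left]
    intro c h1 h2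
    rw [Finset.mem_map] at h1 h2
    obtain ⟨a, _, ha⟩ := h1
    obtain ⟨b, _, hb⟩ := h2
    apply hij
    have h3 : c.1 = i := by rw [← ha]; rfl
    have h4 : c.1 = j := by rw [← hb]; rfl
    rw [← h3, h4]
  refine ⟨(Finset.range (d / k + 1)).biUnion fun j =>
    (W k d m Om eta j).map ⟨Prod.mk j, Prod.mk_right_injective j⟩, ?_, ?_⟩
  · rintro ⟨j, n⟩
    have hmem : ((j, n) ∈ (Finset.range (d / k + 1)).biUnion fun j =>
        (W k d m Om eta j).map ⟨Prod.mk j, Prod.mk_right_injective j⟩) ↔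
        k * j ≤ d ∧ n ∈ W k d m Om eta j := by
      rw [Finset.mem_biUnion]
      constructor
      · rintro ⟨i, hi, hn⟩
        rw [Finset.mem_map] at hn
        obtain ⟨a, ha, hab⟩ := hn
        have h3 : i = j := congrArg Prod.fst hab
        have h4 : a = n := congrArg Prod.snd hab
        subst h3 h4
        refine ⟨?_, ha⟩
        rw [Finset.mem_range, Nat.lt_succ_iff, Nat.le_div_iff_mul_le (by omega)] at hi
        rwa [mul_comm]
      · rintro ⟨h1, h2⟩
        refine ⟨j, ?_, ?_⟩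
        · rw [Finset.mem_range, Nat.lt_succ_iff, Nat.le_div_iff_mul_le (by omega)]
          rwa [mul_comm]
        · rw [Finset.mem_map]
          exact ⟨n, h2, rfl⟩
    rw [hmem]
    show _ ↔ ∃ l < r, InB k r d m Om eta l j n
    unfold W InB
    by_cases hj : k * j = d
    · rw [if_pos hj, Finset.mem_singleton]
      constructor
      · rintro ⟨_, h⟩
        exact ⟨0, by omega, Or.inr ⟨hj, rfl, h⟩⟩
      · rintro ⟨l, _, h | h⟩
        · omega
        · exact ⟨hj.le, h.2.2⟩
    · rw [if_neg hj, Finset.mem_Ico]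
      have key : ∀ hlt : k * j < d, (⌈Aj k d m Om eta j⌉ ≤ n ∧
          n < ⌈Aj k d m Om eta j⌉ + (kap k d m j : ℤ)) ↔
          ∃ l < r, Aj k d m Om eta j + (l : ℕ) * ((kap k d m j : ℝ) / r) ≤ (n : ℝ) ∧
            (n : ℝ) < Aj k d m Om eta j + ((l : ℕ) + 1) * ((kap k d m j : ℝ) / r) := by
        intro hlt
        have hkap : 0 < kap k d m j := by
          unfold kap
          apply Nat.mul_pos (by omega)
          have : k * max j m < d := by
            rcases le_total j m with h | h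
            · rw [max_eq_right h]; exact hmd
            · rw [max_eq_left h]; exact hlt
          omega
        rw [← split _ _ (by exact_mod_cast hkap) r hr]
        have h1 : ⌈Aj k d m Om eta j⌉ + (kap k d m j : ℤ) =
            ⌈Aj k d m Om eta j + (kap k d m j : ℝ)⌉ := by
          rw [Int.ceil_add_natCast]
        rw [h1, Int.ceil_le, Int.lt_ceil]
      constructor
      · rintro ⟨h1, h2⟩
        have hlt : k * j < d := lt_of_le_of_ne h1 hj
        obtain ⟨l, hl, h3, h4⟩ := (key hlt).1 h2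
        exact ⟨l, hl, Or.inl ⟨hlt, h3, h4⟩⟩
      · rintro ⟨l, hl, h | h⟩
        · exact ⟨h.1.le, (key h.1).2 ⟨l, hl, h.2.1, h.2.2⟩⟩
        · exact (hj h.1).elim
  · rw [Finset.card_biUnion hdisj]
    apply Finset.sum_congr rfl
    intro j _
    rw [Finset.card_map, W_card]

end Pool.Agent.Helper59.Nag.CBS
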